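import Pool.Agent.Helper13.JS.St

/-!
Module ER of project JS: from the scale `w` to larger numbers.
-/

set_option autoImplicit false

noncomputable section

namespace Pool.Agent.Helper4.JS

open Finset ArithmeticFunction Pool.Agent.Helper13.JS

theorem fac_nonneg {p : ℕ} (hp : p.Prime) : 0 ≤ 1 - 1 / (p : ℝ) := by
  have h1 : (1 : ℝ) ≤ p := by exact_mod_cast hp.one_lt.le
  have h2 : 1 / (p : ℝ) ≤ 1 := by
    rw [div_le_one (by linarith)]; exact h1
  linarith

theorem fac_le {p : ℕ} (_hp : p.Prime) : 1 - 1 / (p : ℝ) ≤ 1 := by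
  have h2 : 0 ≤ 1 / (p : ℝ) := by positivity
  linarith

theorem pe_nonneg {E : Finset ℕ} (hE : ∀ p ∈ E, p.Prime) (N : ℕ) : 0 ≤ PE E N := by
  unfold PE
  exact Finset.prod_nonneg fun p hp => fac_nonneg (hE p (Finset.mem_filter.mp hp).1)

theorem pe_anti {E : Finset ℕ} (hE : ∀ p ∈ E, p.Prime) {M N : ℕ} (h : M ≤ N) :
    PE E N ≤ PE E M := by
  unfold PE
  have hsub : E.filter (· ≤ M) ⊆ E.filter (· ≤ N) := by
    intro p hp
    rw [Finset.mem_filter] at hp ⊢
    exact ⟨hp.1, hp.2.trans h⟩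
  rw [← Finset.prod_sdiff hsub]
  have h1 : ∏ p ∈ E.filter (· ≤ N) \ E.filter (· ≤ M), (1 - 1 / (p : ℝ)) ≤ 1 := by
    apply Finset.prod_le_one
    · intro p hp
      exact fac_nonneg (hE p (Finset.mem_filter.mp (Finset.mem_sdiff.mp hp).1).1)
    · intro p hp
      exact fac_le (hE p (Finset.mem_filter.mp (Finset.mem_sdiff.mp hp).1).1)
  have h2 : 0 ≤ ∏ p ∈ E.filter (· ≤ M), (1 - 1 / (p : ℝ)) :=
    Finset.prod_nonneg fun p hp => fac_nonneg (hE p (Finset.mem_filter.mp hp).1)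
  calc _ ≤ 1 * ∏ p ∈ E.filter (· ≤ M), (1 - 1 / (p : ℝ)) := mul_le_mul_of_nonneg_right h1 h2
    _ = _ := one_mul _

open Classical in
/-- multiples of a prime `q ∉ E` -/
theorem fr_le {E : Finset ℕ} (hE : ∀ p ∈ E, p.Prime) {q N : ℕ} (hq : q.Prime) (hqE : q ∉ E) :
    Fr E (N / q) ≤ (((Icc 1 N).filter (fun n => ∀ p ∈ E, ¬ p ∣ n)).filter
      (fun n => q ∣ n)).card := by
  unfold Fr
  apply Finset.card_le_card_of_injOn (fun m => q * m)
  · intro m hm
    have hm' := Finset.mem_filter.mp (Finset.mem_coe.mp hm)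
    have hm1 := Finset.mem_Icc.mp hm'.1
    rw [Finset.mem_coe, Finset.mem_filter, Finset.mem_filter, Finset.mem_Icc]
    refine ⟨⟨⟨?_, ?_⟩, ?_⟩, dvd_mul_right _ _⟩
    · exact Nat.one_le_iff_ne_zero.mpr (Nat.mul_ne_zero hq.ne_zero (by omega))
    · show q * m ≤ N
      rw [mul_comm]
      exact (Nat.le_div_iff_mul_le hq.pos).mp hm1.2
    · intro p hp hd
      rcases (hE p hp).dvd_mul.mp hd with h | h
      · exact hqE (((Nat.prime_dvd_prime_iff_eq (hE p hp) hq).mp h) ▸ hp)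
      · exact hm'.2 p hp h
  · intro a _ b _ hab
    exact Nat.eq_of_mul_eq_mul_left hq.pos hab

open Classical in
/-- double counting -/
theorem dcount {E Q : Finset ℕ} (hE : ∀ p ∈ E, p.Prime) (hQ : ∀ q ∈ Q, q.Prime ∧ q ∉ E)
    {N : ℕ} {K : ℝ} (hK : ∀ n ∈ Icc 1 N, ((Q.filter (fun q => q ∣ n)).card : ℝ) ≤ K) :
    ∑ q ∈ Q, (Fr E (N / q) : ℝ) ≤ K * Fr E N := by
  set F := (Icc 1 N).filter (fun n => ∀ p ∈ E, ¬ p ∣ n) with hF
  have h1 : ∑ q ∈ Q, (Fr E (N / q) : ℝ) ≤ ∑ q ∈ Q, (((F.filter (fun n => q ∣ n)).card : ℕ) : ℝ) := by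
    apply Finset.sum_le_sum
    intro q hq
    exact_mod_cast fr_le hE (hQ q hq).1 (hQ q hq).2
  have h2 : ∑ q ∈ Q, (((F.filter (fun n => q ∣ n)).card : ℕ) : ℝ)
      = ∑ n ∈ F, (((Q.filter (fun q => q ∣ n)).card : ℕ) : ℝ) := by
    have h3 : ∑ q ∈ Q, (F.filter (fun n => q ∣ n)).card
        = ∑ n ∈ F, (Q.filter (fun q => q ∣ n)).card := by
      simp only [Finset.card_filter]
      rw [Finset.sum_comm]
    exact_mod_cast h3
  have h3 : ∑ n ∈ F, (((Q.filter (fun q => q ∣ n)).card : ℕ) : ℝ) ≤ ∑ _n ∈ F, K := by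
    apply Finset.sum_le_sum
    intro n hn
    exact hK n (Finset.mem_filter.mp hn).1
  rw [Finset.sum_const, nsmul_eq_mul] at h3
  have h4 : (F.card : ℝ) = Fr E N := by
    unfold Fr
    rw [hF]
  rw [h4] at h3
  linarith

/-- few large prime factors -/
theorem few {Q : Finset ℕ} {w η A : ℝ} (hw : 1 < w) (hη : 0 < η) {N : ℕ}
    (hQ : ∀ q ∈ Q, q.Prime ∧ w ^ η ≤ (q : ℝ)) (hN : (N : ℝ) ≤ w ^ A) (n : ℕ)
    (hn : n ∈ Icc 1 N) : ((Q.filter (fun q => q ∣ n)).card : ℝ) ≤ A / η := by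
  have hn' := Finset.mem_Icc.mp hn
  set T := Q.filter (fun q => q ∣ n) with hT
  have h1 : (∏ q ∈ T, q) ∣ n := by
    apply Finset.prod_primes_dvd
    · intro q hq
      exact (hQ q (Finset.mem_filter.mp hq).1).1.prime
    · intro q hq
      exact (Finset.mem_filter.mp hq).2
  have h2 : (∏ q ∈ T, q) ≤ N := (Nat.le_of_dvd (by omega) h1).trans hn'.2
  have h3 : (w ^ η) ^ T.card ≤ ((∏ q ∈ T, q : ℕ) : ℝ) := by
    rw [Nat.cast_prod, ← Finset.prod_const]
    apply Finset.prod_le_prod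
    · intro q _; positivity
    · intro q hq
      exact (hQ q (Finset.mem_filter.mp hq).1).2
  have h4 : (w ^ η) ^ T.card ≤ w ^ A := by
    refine h3.trans (le_trans ?_ hN)
    exact_mod_cast h2
  rw [← Real.rpow_natCast, ← Real.rpow_mul (by linarith)] at h4
  have h5 := (Real.rpow_le_rpow_left_iff hw).mp h4
  rw [le_div_iff₀ hη]
  linarith

theorem hER (hM2 : Pool.Agent.Helper60.GP.StM2) : StER := by
  intro η A c₀ hη hη1 hA hc₀
  obtain ⟨z₀, hz₀⟩ := hM2 (6 * η / 5) (2 / 5) (by positivity) (by linarith) (1 / 4) (by norm_num)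
  set J : ℕ := ⌈2 * A / η⌉₊ with hJ
  set ρ : ℝ := η / (8 * A) with hρ
  have hρ0 : 0 < ρ := by positivity
  have hρ1 : ρ ≤ 1 := by
    rw [hρ, div_le_one (by positivity)]
    linarith
  refine ⟨c₀ * ρ ^ J, max z₀ 1024, by positivity, le_trans (by norm_num) (le_max_right _ _), ?_⟩
  intro E w hE hw hms hbase
  have hwz : z₀ ≤ w := (le_max_left _ _).trans hw
  have hw1024 : (1024 : ℝ) ≤ w := (le_max_right _ _).trans hw
  have hw1 : 1 < w := by linarith
  have hw0 : 0 < w := by linarith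
  -- the set of primes
  classical
  set W := (range ⌈w ^ (2 / 5 : ℝ)⌉₊).filter (fun p : ℕ => p.Prime ∧ w ^ (6 * η / 5) ≤ p) with hW
  set Q := W.filter (fun p => p ∉ E) with hQ
  have hηpow : w ^ η < w ^ (6 * η / 5) := Real.rpow_lt_rpow_of_exponent_lt hw1 (by linarith)
  have hWm : ∀ q ∈ W, q.Prime ∧ w ^ η < (q : ℝ) ∧ (q : ℝ) < w ^ (2 / 5 : ℝ) := by
    intro q hq
    rw [hW, Finset.mem_filter, Finset.mem_range, Nat.lt_ceil] at hq
    exact ⟨hq.2.1, hηpow.trans_le hq.2.2, hq.1⟩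
  have hw25 : w ^ (2 / 5 : ℝ) ≤ w := by
    calc w ^ (2 / 5 : ℝ) ≤ w ^ (1 : ℝ) := Real.rpow_le_rpow_of_exponent_le hw1.le (by norm_num)
      _ = w := Real.rpow_one w
  have hQsum : 1 / 2 ≤ ∑ q ∈ Q, 1 / (q : ℝ) := by
    have h1 := hz₀ w hwz
    rw [← hW] at h1
    have h2 : Real.log (20 / 3) ≤ Real.log (2 / 5 / (6 * η / 5)) := by
      apply Real.log_le_log (by norm_num)
      rw [div_div_eq_mul_div, le_div_iff₀ (by positivity)]
      nlinarith
    have h3 : (5 : ℝ) / 4 ≤ Real.log (20 / 3) := by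
      have h4 : Real.log 4 ≤ Real.log (20 / 3) := Real.log_le_log (by norm_num) (by norm_num)
      have h5 : Real.log 4 = 2 * Real.log 2 := by
        rw [show (4 : ℝ) = 2 ^ 2 by norm_num, Real.log_pow]; norm_num
      have h6 := Real.log_two_gt_d9
      linarith
    have h4 := (abs_le.mp h1).1
    have h5 : ∑ p ∈ W, 1 / (p : ℝ) = ∑ p ∈ Q, 1 / (p : ℝ)
        + ∑ p ∈ W.filter (fun p => ¬ p ∉ E), 1 / (p : ℝ) :=
      (Finset.sum_filter_add_sum_filter_not W (fun p => p ∉ E) _).symm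
    have h6 : ∑ p ∈ W.filter (fun p => ¬ p ∉ E), 1 / (p : ℝ) ≤ ms E (w ^ η) w := by
      unfold ms
      apply Finset.sum_le_sum_of_subset_of_nonneg
      · intro p hp
        rw [Finset.mem_filter, not_not] at hp
        rw [Finset.mem_filter]
        obtain ⟨_, h8, h9⟩ := hWm p hp.1
        exact ⟨hp.2, h8, (h9.le).trans hw25⟩
      · intro p _ _; positivity
    linarith
  have hQm : ∀ q ∈ Q, q.Prime ∧ q ∉ E ∧ w ^ η < (q : ℝ) ∧ (q : ℝ) < w ^ (2 / 5 : ℝ) := by
    intro q hq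
    rw [hQ, Finset.mem_filter] at hq
    obtain ⟨h1, h2, h3⟩ := hWm q hq.1
    exact ⟨h1, hq.2, h2, h3⟩
  -- the step
  have hgap : w ^ (1 / 2 : ℝ) + 1 ≤ w ^ (3 / 5 : ℝ) := by
    have h1 : w ^ (3 / 5 : ℝ) = w ^ (1 / 2 : ℝ) * w ^ (1 / 10 : ℝ) := by
      rw [← Real.rpow_add hw0]; norm_num
    have h2 : (2 : ℝ) ≤ w ^ (1 / 10 : ℝ) := by
      have h3 : (2 : ℝ) = (1024 : ℝ) ^ (1 / 10 : ℝ) := by
        rw [show (1024 : ℝ) = 2 ^ (10 : ℝ) by norm_num, ← Real.rpow_mul (by norm_num)]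
        norm_num
      rw [h3]
      exact Real.rpow_le_rpow (by norm_num) hw1024 (by norm_num)
    have h3 : (1 : ℝ) ≤ w ^ (1 / 2 : ℝ) := Real.one_le_rpow hw1.le (by norm_num)
    rw [h1]
    nlinarith
  have hstep : ∀ j : ℕ, ∀ N : ℕ, w ^ (1 / 2 : ℝ) ≤ N → (N : ℝ) ≤ w ^ (1 + j * (η / 2)) →
      (N : ℝ) ≤ w ^ A → c₀ * ρ ^ j * N * PE E N ≤ Fr E N := by
    intro j
    induction j with
    | zero =>
      intro N h1 h2 _
      have h4 : (N : ℝ) ≤ w := by simpa using h2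
      simpa using hbase N h1 h4
    | succ j ih =>
      intro N h1 h2 h3
      have hPE : 0 ≤ PE E N := pe_nonneg hE N
      have hN0 : (0 : ℝ) ≤ N := Nat.cast_nonneg N
      by_cases hlt : (N : ℝ) ≤ w ^ (1 + j * (η / 2))
      · have h4 := ih N h1 hlt h3
        refine le_trans ?_ h4
        have h5 : c₀ * ρ ^ (j + 1) ≤ c₀ * ρ ^ j :=
          mul_le_mul_of_nonneg_left (pow_le_pow_of_le_one hρ0.le hρ1 (Nat.le_succ j)) hc₀.le
        exact mul_le_mul_of_nonneg_right (mul_le_mul_of_nonneg_right h5 hN0) hPE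
      · rw [not_le] at hlt
        have hNw : w ≤ (N : ℝ) := by
          refine le_trans ?_ hlt.le
          calc w = w ^ (1 : ℝ) := (Real.rpow_one w).symm
            _ ≤ w ^ (1 + (j : ℝ) * (η / 2)) :=
              Real.rpow_le_rpow_of_exponent_le hw1.le (by
                have : (0 : ℝ) ≤ (j : ℝ) * (η / 2) := by positivity
                linarith)
        have hK := dcount (E := E) (Q := Q) hE (fun q hq => ⟨(hQm q hq).1, (hQm q hq).2.1⟩)
          (N := N) (K := A / η)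
          (fun n hn => few hw1 hη (fun q hq => ⟨(hQm q hq).1, (hQm q hq).2.2.1.le⟩) h3 n hn)
        have hlow : ∑ q ∈ Q, (c₀ * ρ ^ j * (N / 2) * PE E N) * (1 / (q : ℝ))
            ≤ ∑ q ∈ Q, (Fr E (N / q) : ℝ) := by
          apply Finset.sum_le_sum
          intro q hq
          obtain ⟨hqp, hqE, hq1, hq2⟩ := hQm q hq
          have hq0 : (0 : ℝ) < q := by exact_mod_cast hqp.pos
          have hwη : 0 < w ^ η := Real.rpow_pos_of_pos hw0 _
          have hdiv1 : ((N / q : ℕ) : ℝ) ≤ N / q := Nat.cast_div_le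
          have hdiv2 : (N : ℝ) / q < ((N / q : ℕ) : ℝ) + 1 := by
            rw [div_lt_iff₀ hq0]
            have : N < (N / q + 1) * q := by
              have := Nat.lt_mul_div_succ N hqp.pos
              linarith [this, mul_comm q (N / q + 1)]
            exact_mod_cast this
          have hquo : w ^ (3 / 5 : ℝ) ≤ (N : ℝ) / q := by
            rw [le_div_iff₀ hq0]
            calc w ^ (3 / 5 : ℝ) * q ≤ w ^ (3 / 5 : ℝ) * w ^ (2 / 5 : ℝ) :=
                  mul_le_mul_of_nonneg_left hq2.le (by positivity)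
              _ = w := by rw [← Real.rpow_add hw0]; norm_num
              _ ≤ N := hNw
          have ht1 : w ^ (1 / 2 : ℝ) ≤ ((N / q : ℕ) : ℝ) := by linarith
          have ht2 : ((N / q : ℕ) : ℝ) ≤ w ^ (1 + (j : ℝ) * (η / 2)) := by
            refine hdiv1.trans ?_
            rw [div_le_iff₀ hq0]
            calc (N : ℝ) ≤ w ^ (1 + ((j + 1 : ℕ) : ℝ) * (η / 2)) := h2
              _ ≤ w ^ (1 + (j : ℝ) * (η / 2)) * w ^ η := by
                rw [← Real.rpow_add hw0]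
                apply Real.rpow_le_rpow_of_exponent_le hw1.le
                push_cast
                nlinarith
              _ ≤ w ^ (1 + (j : ℝ) * (η / 2)) * q :=
                mul_le_mul_of_nonneg_left hq1.le (by positivity)
          have hNq : N / q ≤ N := Nat.div_le_self N q
          have ht3 : ((N / q : ℕ) : ℝ) ≤ w ^ A := le_trans (by exact_mod_cast hNq) h3
          have h4 := ih (N / q) ht1 ht2 ht3
          have hone : (1 : ℝ) ≤ ((N / q : ℕ) : ℝ) :=
            le_trans (Real.one_le_rpow hw1.le (by norm_num)) ht1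
          have hhalf : (N : ℝ) / 2 * (1 / q) ≤ ((N / q : ℕ) : ℝ) := by
            have : (N : ℝ) / 2 * (1 / q) = (N / q) / 2 := by ring
            rw [this]; linarith
          have hPa : PE E N ≤ PE E (N / q) := pe_anti hE hNq
          have hcj : 0 ≤ c₀ * ρ ^ j := by positivity
          calc (c₀ * ρ ^ j * (N / 2) * PE E N) * (1 / (q : ℝ))
              = (c₀ * ρ ^ j) * ((N : ℝ) / 2 * (1 / q)) * PE E N := by ring
            _ ≤ (c₀ * ρ ^ j) * ((N / q : ℕ) : ℝ) * PE E (N / q) := by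
                apply mul_le_mul (mul_le_mul_of_nonneg_left hhalf hcj) hPa hPE
                positivity
            _ ≤ Fr E (N / q) := h4
        rw [← Finset.mul_sum] at hlow
        have hcN : 0 ≤ c₀ * ρ ^ j * (N / 2) * PE E N := by positivity
        have h5 : c₀ * ρ ^ j * (N / 2) * PE E N * (1 / 2) ≤ A / η * Fr E N :=
          (mul_le_mul_of_nonneg_left hQsum hcN).trans (hlow.trans hK)
        have h6 : c₀ * ρ ^ (j + 1) * N * PE E N
            = (η / A) * (c₀ * ρ ^ j * (N / 2) * PE E N * (1 / 2)) / 2 := by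
          rw [pow_succ, hρ]
          field_simp
          ring
        have h7 : (η / A) * (c₀ * ρ ^ j * (N / 2) * PE E N * (1 / 2))
            ≤ (η / A) * (A / η * Fr E N) := mul_le_mul_of_nonneg_left h5 (by positivity)
        have h8 : (η / A) * (A / η * (Fr E N : ℝ)) = Fr E N := by
          field_simp
        have h9 : 0 ≤ (η / A) * (c₀ * ρ ^ j * (N / 2) * PE E N * (1 / 2)) := by positivity
        rw [h6]
        linarith
  intro N h1 h2
  refine hstep J N h1 (h2.trans ?_) h2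
  apply Real.rpow_le_rpow_of_exponent_le hw1.le
  have h3 : 2 * A / η ≤ (J : ℝ) := Nat.le_ceil _
  have h4 : A ≤ (J : ℝ) * (η / 2) := by
    rw [div_le_iff₀ hη] at h3
    linarith
  linarith

end Pool.Agent.Helper4.JS
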